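import Pool.Agent.NH64.JT.Final

/-!
# Non-separable subspaces of the dual of the James tree space contain its predual
(MP_245e03_an, Q2)

`Tree` is the set of finite 0-1 sequences (`List Bool`), ordered by extension, and `Pre Tree` is the
space of finitely supported functions `x : Tree → ℝ` with the norm
`sup (∑_{S ∈ P} (∑_{α ∈ S} x α)²)^(1/2)`, the supremum over the finite families `P` of pairwise
disjoint segments of the tree (`Pool.Agent.R277.JT.Def`).
-/

set_option autoImplicit false

namespace Pool.Agent.Results.MP_245e03_an.NonseparableContainsPredual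

open Pool.Agent.R277.JT Pool.Agent.NH64.JT UniformSpace

/-- The James tree space: the completion of the finitely supported functions on the dyadic tree. -/
def JT : Type := Completion (Pre Tree)

noncomputable instance : NormedAddCommGroup JT :=
  Completion.instNormedAddCommGroup (Pre Tree)

noncomputable instance : NormedSpace ℝ JT :=
  Completion.instNormedSpace ℝ (Pre Tree)

/-- The unit vector `e_α` of `JT`. -/
noncomputable def unit (α : Tree) : JT := ((ev α : Pre Tree) : Completion (Pre Tree))

/-- The dual of a normed space, with the dual norm. -/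
def Dual (E : Type*) [NormedAddCommGroup E] [NormedSpace ℝ E] : Type _ := StrongDual ℝ E

section dual

variable {E : Type*} [NormedAddCommGroup E] [NormedSpace ℝ E]

noncomputable instance : NormedAddCommGroup (Dual E) := ContinuousLinearMap.toNormedAddCommGroup

noncomputable instance : NormedSpace ℝ (Dual E) := ContinuousLinearMap.toNormedSpace

/-- The value of a functional. -/
def Dual.eval (g : Dual E) (x : E) : ℝ := (show StrongDual ℝ E from g) x

end dual

/-- `g` is the coordinate functional `e*_α`: `g (e_β)` is `1` if `β = α` and `0` otherwise. -/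
def IsCoord (g : Dual JT) (α : Tree) : Prop :=
  g.eval (unit α) = 1 ∧ ∀ β, β ≠ α → g.eval (unit β) = 0

/-- The space `𝓑`: the closed linear span of the coordinate functionals `e*_α` in `JT*`. -/
noncomputable def predual : Submodule ℝ (Dual JT) :=
  (Submodule.span ℝ {g | ∃ α, IsCoord g α}).topologicalClosure

/-- `E` contains `F`: some closed subspace of `E` is isomorphic to `F`. -/
def Contains (E F : Type*) [NormedAddCommGroup E] [NormedSpace ℝ E] [NormedAddCommGroup F]
    [NormedSpace ℝ F] : Prop :=
  ∃ Z : Submodule ℝ E, IsClosed (Z : Set E) ∧ Nonempty (Z ≃L[ℝ] F)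

/-- The dual of `JT` is the dual of the space of finitely supported functions. -/
noncomputable def eD : Dual JT ≃ₗᵢ[ℝ] D Tree := eT

lemma eD_ev (g : Dual JT) (α : Tree) : eD g (ev α) = g.eval (unit α) := rfl

/-- The coordinate functionals are the functionals `x ↦ x α`. -/
lemma isCoord_iff (g : Dual JT) (α : Tree) : IsCoord g α ↔ eD g = es α := by
  classical
  constructor
  · rintro ⟨h1, h2⟩
    apply D_ext
    intro β
    rw [eD_ev, es_ev]
    split_ifs with h
    · rw [← h, h1]
    · exact h2 β (Ne.symm h)
  · intro h
    refine ⟨?_, fun β hβ => ?_⟩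
    · rw [← eD_ev, h, es_ev, if_pos rfl]
    · rw [← eD_ev, h, es_ev, if_neg (Ne.symm hβ)]

/-- Each node `α` has exactly one coordinate functional `e*_α`. -/
lemma existsUnique_coord (α : Tree) : ∃! g : Dual JT, IsCoord g α := by
  refine ⟨eD.symm (es α), (isCoord_iff _ _).2 (eD.apply_symm_apply _), fun g hg => ?_⟩
  rw [← (isCoord_iff _ _).1 hg, eD.symm_apply_apply]

/-- Q2: every non-separable closed subspace `Y` of `JT*` contains `𝓑`. -/
theorem result (Y : Submodule ℝ (Dual JT)) (hYc : IsClosed (Y : Set (Dual JT)))
    (hY : ¬ TopologicalSpace.SeparableSpace Y) : Contains Y predual := by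
  have h0 : CompleteSpace (Dual JT) :=
    inferInstanceAs (CompleteSpace (StrongDual ℝ (Completion (Pre Tree))))
  apply main3 eD Y predual hYc (Submodule.isClosed_topologicalClosure _) hY
  intro g hg
  have h1 : g ∈ closure ((Submodule.span ℝ {g | ∃ α, IsCoord g α} : Submodule ℝ (Dual JT)) :
      Set (Dual JT)) := hg
  have h2 := image_closure_subset_closure_image eD.continuous (Set.mem_image_of_mem eD h1)
  refine closure_mono ?_ h2
  rintro _ ⟨f, hf, rfl⟩
  change eD f ∈ Submodule.span ℝ (Set.range es)
  have hf' : f ∈ Submodule.span ℝ {g | ∃ α, IsCoord g α} := hf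
  clear hf h1 h2 hg hY hYc
  induction hf' using Submodule.span_induction with
  | mem x hx =>
    obtain ⟨α, hα⟩ := hx
    rw [(isCoord_iff _ _).1 hα]
    exact Submodule.subset_span ⟨α, rfl⟩
  | zero => rw [map_zero]; exact Submodule.zero_mem _
  | add x y _ _ hx hy => rw [map_add]; exact Submodule.add_mem _ hx hy
  | smul a x _ hx => rw [map_smul]; exact Submodule.smul_mem _ _ hx

end Pool.Agent.Results.MP_245e03_an.NonseparableContainsPredual
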